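import Pool.Agent.H8.T5.Ring

set_option autoImplicit false

/-!
# Module LMB: the patterns at two special points are conjugate
-/

namespace Pool.H66.SYM

open Classical in
/-- The Laurent polynomial of a multiset of weights. -/
noncomputable def LMB_x {m : ℕ} (B : Multiset (Fin m → ℤ)) : (Fin m → ℤ) →₀ ℤ :=
  (Multiset.toFinsupp B).mapRange (fun n : ℕ => (n : ℤ)) (by simp)

open Classical in
theorem LMB_x_apply {m : ℕ} (B : Multiset (Fin m → ℤ)) (a : Fin m → ℤ) :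
    LMB_x B a = (B.count a : ℤ) := by
  simp [LMB_x]

theorem LMB_x_supp {m : ℕ} (B : Multiset (Fin m → ℤ)) (a : Fin m → ℤ)
    (h : a ∈ (LMB_x B).support) : a ∈ B := by
  classical
  rw [Finsupp.mem_support_iff, LMB_x_apply] at h
  by_contra hc
  apply h
  rw [Multiset.count_eq_zero_of_notMem hc]
  rfl

theorem LMB_x_inj {m : ℕ} {B B' : Multiset (Fin m → ℤ)} (h : LMB_x B = LMB_x B') : B = B' := by
  classical
  ext a
  have := congrArg (fun f => f a) h
  simp only [LMB_x_apply] at this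
  exact_mod_cast this

theorem LMB_ev {m : ℕ} (B : Multiset (Fin m → ℤ)) (c : Fin m → ℂ) :
    ev (LMB_x B) c = (B.map (mon c)).sum := by
  classical
  rw [Finset.sum_multiset_map_count]
  unfold ev Finsupp.sum
  refine Finset.sum_subset_zero_on_sdiff ?_ ?_ ?_
  · intro a ha
    rw [Multiset.mem_toFinset]
    exact LMB_x_supp B a ha
  · intro a ha
    have h := (Finset.mem_sdiff.1 ha).2
    rw [Finsupp.mem_support_iff, not_not, LMB_x_apply] at h
    have h2 : B.count a = 0 := by exact_mod_cast h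
    simp [h2]
  · intro a _
    rw [LMB_x_apply]
    simp

theorem LMB_perm {m : ℕ} (B : Multiset (Fin m → ℤ)) (ρ σ : Equiv.Perm (Fin m))
    (a : Fin m → ℤ) :
    LMB_x (B.map fun b => b ∘ (σ * ρ⁻¹ : Equiv.Perm (Fin m))) a =
      LMB_x (B.map fun b => b ∘ σ) (a ∘ ρ) := by
  classical
  rw [LMB_x_apply, LMB_x_apply]
  have h1 : (B.map fun b => b ∘ σ) =
      (B.map fun b => b ∘ (σ * ρ⁻¹ : Equiv.Perm (Fin m))).map fun b => b ∘ ρ := by
    rw [Multiset.map_map]
    refine Multiset.map_congr rfl fun b _ => ?_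
    ext j
    simp
  rw [h1]
  have hinj : Function.Injective fun b : Fin m → ℤ => b ∘ ρ := by
    intro b b' hb
    ext j
    have := congrFun hb (ρ.symm j)
    simpa using this
  rw [Multiset.count_map_eq_count' _ _ hinj]

/-- Inversion of the variables. -/
noncomputable def LMB_inv {m : ℕ} : H8LR m ≃ₐ[ℤ] H8LR m :=
  AddMonoidAlgebra.domCongr ℤ ℤ (AddEquiv.neg (Fin m → ℤ))

theorem LMB_inv_coeff {m : ℕ} (x : H8LR m) (a : Fin m → ℤ) :
    (LMB_inv x).coeff a = x.coeff (-a) := by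
  unfold LMB_inv
  rw [AddMonoidAlgebra.coeff_domCongr]
  rfl

theorem LMB_inv_mem {m : ℕ} {d : ℤ} {H : ℕ} {x : H8LR m} (hx : x ∈ h8S m d H) :
    LMB_inv x ∈ h8S m (-d) H := by
  intro a ha
  rw [Finsupp.mem_support_iff, LMB_inv_coeff] at ha
  have h := Wt_neg (hx (-a) (Finsupp.mem_support_iff.2 ha))
  rwa [neg_neg] at h

theorem LMB_inv_ev {m : ℕ} (x : H8LR m) (c : Fin m → ℂ) :
    ev (LMB_inv x).coeff c = ev x.coeff fun j => (c j)⁻¹ := by
  have h : (LMB_inv x).coeff = Finsupp.equivMapDomain (Equiv.neg (Fin m → ℤ)) x.coeff := by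
    ext a
    rw [LMB_inv_coeff, Finsupp.equivMapDomain_apply]
    rfl
  rw [h]
  unfold ev
  rw [Finsupp.sum_equivMapDomain]
  refine Finsupp.sum_congr fun a _ => ?_
  congr 1
  show mon c (-a) = _
  rw [mon_neg]
  have := mon_zpow c a (-1)
  simp only [zpow_neg, zpow_one] at this
  exact this.symm

theorem LMB_zero {m : ℕ} (x : H8LR m) (h : (x * LMB_inv x).coeff 0 = 0) : x = 0 := by
  classical
  rw [AddMonoidAlgebra.coeff_mul] at h
  have h1 : ∀ a ∈ x.coeff.support, ((LMB_inv x).coeff.sum fun b r =>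
      if a + b = 0 then x.coeff a * r else 0) = x.coeff a * x.coeff a := by
    intro a ha
    unfold Finsupp.sum
    rw [Finset.sum_eq_single (-a)]
    · show (if a + -a = 0 then x.coeff a * (LMB_inv x).coeff (-a) else 0) = _
      rw [if_pos (add_neg_cancel a), LMB_inv_coeff, neg_neg]
    · intro b _ hb
      refine if_neg fun h0 => hb ?_
      exact (neg_eq_of_add_eq_zero_right h0).symm
    · intro hna
      rw [Finsupp.notMem_support_iff] at hna
      rw [hna]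
      simp
  have h2 : ∑ a ∈ x.coeff.support, x.coeff a * x.coeff a = 0 := by
    rw [← h]
    exact (Finset.sum_congr rfl fun a ha => h1 a ha).symm
  clear h
  rename' h2 => h
  rw [Finset.sum_eq_zero_iff_of_nonneg fun a _ => mul_self_nonneg _] at h
  ext a
  by_cases ha : a ∈ x.coeff.support
  · exact mul_self_eq_zero.1 (h a ha)
  · exact Finsupp.notMem_support_iff.1 ha

theorem LMB_pow (A : Aut) (hBAS : S_BAS) (y : A.Cusp) {m : ℕ} (p : A.Pt) (c : Fin m → ℂ)
    (B : Multiset (Fin m → ℤ)) (h : A.eig y p = B.map (mon c)) (k : ℤ) :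
    A.eig y (p.pow k) = B.map (mon fun j => c j ^ k) := by
  obtain ⟨-, -, hpow, -⟩ := hBAS A
  rw [hpow, h, Multiset.map_map]
  refine Multiset.map_congr rfl fun a _ => ?_
  simp [mon_zpow]

theorem LMB_ord (A : Aut) (hBAS : S_BAS) (τ : A.Cusp) {m : ℕ} (p : A.Pt) (c : Fin m → ℂ)
    (h : A.Ord τ p c) (k : ℤ) : A.Ord τ (p.pow k) fun j => c j ^ k := by
  obtain ⟨-, -, hpow, -⟩ := hBAS A
  unfold AData.Ord at h ⊢
  rw [hpow, h, Multiset.map_map]
  rfl

theorem s_LMB (hBAS : S_BAS) (hRMU : S_RMU) (hRTA : S_RTA) (hSPR : S_SPR) (hLMC : S_LMC) :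
    S_LMB := by
  classical
  intro m H
  set n : ℕ := Fintype.card (Equiv.Perm (Fin m)) with hn
  obtain ⟨M₀, hM₀⟩ := hLMC m (n * ((2 * m + 1) * H) + n * ((2 * m + 1) * H))
  refine ⟨M₀, ?_⟩
  intro A τ M hM hctx hlim d y hy S S' B B' hB hB'
  have hm := hctx.hm
  obtain ⟨-, -, hmul, -, -, hmono⟩ := hRMU A τ m (hctx.sym 2) hm hctx.deg
  obtain ⟨-, -, -, hdual, -, -⟩ := hRTA A τ m hm hctx.deg
  obtain ⟨-, hne, -⟩ := hBAS A
  have hY : A.tr y ∈ A.RH τ m d H := AddSubgroup.subset_closure (Set.mem_image_of_mem _ hy)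
  obtain ⟨X, hX, hXv⟩ := hSPR A τ m hctx.sym hm hctx.deg d H (A.tr y) hY (Equiv.Perm (Fin m))
    (fun σ => LMB_x (B.map fun b => b ∘ σ)) (fun ρ => Equiv.mulRight ρ⁻¹)
    (by
      intro σ a ha
      obtain ⟨b, hb, rfl⟩ := Multiset.mem_map.1 (LMB_x_supp _ a ha)
      exact Wt_comp (hB.1 b hb) σ)
    (by
      intro ρ σ a
      exact LMB_perm B ρ σ a)
  have hXd := hdual _ _ X hX
  have hF := hmul _ _ _ _ X hX _ hXd
  rw [add_neg_cancel] at hF
  obtain ⟨n₀, hn₀⟩ := hM₀ A τ M hM hctx hlim _ hF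
  -- at `S`
  have hz : (0 : ℤ) = n₀ := by
    have h := hn₀ S 0 (by simp) ?_
    · simpa using h
    · intro j hj
      have h1 : X (S.p.pow j) = 0 := by
        have hO := LMB_ord A hBAS τ S.p S.c (S.ord (eu S.y)) (j : ℤ)
        rw [hXv _ _ hO]
        refine Finset.prod_eq_zero (Finset.mem_univ (1 : Equiv.Perm (Fin m))) ?_
        have h2 : (B.map fun b => b ∘ (1 : Equiv.Perm (Fin m))) = B := by
          conv_rhs => rw [← Multiset.map_id B]
          rfl
        rw [h2, LMB_ev]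
        unfold AData.tr
        rw [LMB_pow A hBAS y S.p S.c B hB.2, sub_self]
      rw [ev_zero]
      simp [h1]
  -- at `S'`
  set x' : H8LR m := AddMonoidAlgebra.ofCoeff (LMB_x B') with hx'
  set x : Equiv.Perm (Fin m) → H8LR m := fun σ =>
    AddMonoidAlgebra.ofCoeff (LMB_x (B.map fun b => b ∘ σ)) with hx
  set Ξ : H8LR m := ∏ σ, (x' - x σ) with hΞ
  have hx'S : x' ∈ h8S m d H := fun a ha => hB'.1 a (LMB_x_supp _ a ha)
  have hxS : ∀ σ, x σ ∈ h8S m d H := by
    intro σ a ha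
    obtain ⟨b, hb, rfl⟩ := Multiset.mem_map.1 (LMB_x_supp _ a ha)
    exact Wt_comp (hB.1 b hb) σ
  have hΞS : Ξ ∈ h8S m ((n : ℤ) * d) (n * H) := by
    have h := h8S_prod Finset.univ (fun σ => x' - x σ)
      (d := d) (H := H) fun σ _ => AddSubgroup.sub_mem _ hx'S (hxS σ)
    rw [Finset.card_univ] at h
    exact h
  have hΞΞ : Ξ * LMB_inv Ξ ∈ h8S m 0 (n * ((2 * m + 1) * H) + n * ((2 * m + 1) * H)) := by
    have h := h8S_mul hΞS (LMB_inv_mem hΞS)
    rw [add_neg_cancel] at h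
    refine h8S_mono ?_ h
    have : n * H ≤ n * ((2 * m + 1) * H) := by
      refine Nat.mul_le_mul_left _ ?_
      nlinarith [Nat.zero_le (m * H)]
    omega
  have hXΞ : ∀ (k : ℤ), X (S'.p.pow k) = ev Ξ.coeff fun i => S'.c i ^ k := by
    intro k
    have hO := LMB_ord A hBAS τ S'.p S'.c (S'.ord (eu S'.y)) k
    have hc0 : ∀ j, S'.c j ^ k ≠ 0 := by
      intro j hj
      apply hne τ (S'.p.pow k)
      rw [hO, ← hj]
      exact Multiset.mem_map_of_mem (fun j => S'.c j ^ k) (Finset.mem_univ j)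
    rw [hXv _ _ hO, ← h8ev_eq _ hc0, hΞ, map_prod]
    refine Finset.prod_congr rfl fun σ _ => ?_
    rw [map_sub, h8ev_eq, h8ev_eq]
    congr 1
    show A.tr y (S'.p.pow k) = ev (LMB_x B') _
    rw [LMB_ev]
    unfold AData.tr
    rw [LMB_pow A hBAS y S'.p S'.c B' hB'.2]
  have hz' := hn₀ S' (Ξ * LMB_inv Ξ).coeff hΞΞ (by
    intro j hj
    have e1 : (S'.p.pow (j : ℤ)).pow (-1) = S'.p.pow (-(j : ℤ)) := by
      unfold AData.Pt.pow
      simp
    have hc0 : ∀ i, S'.c i ^ j ≠ 0 := by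
      intro i hi
      have hO := LMB_ord A hBAS τ S'.p S'.c (S'.ord (eu S'.y)) (j : ℤ)
      apply hne τ (S'.p.pow (j : ℤ))
      rw [hO, ← hi, ← zpow_natCast]
      exact Multiset.mem_map_of_mem (fun i => S'.c i ^ (j : ℤ)) (Finset.mem_univ i)
    rw [← h8ev_eq _ hc0, map_mul, h8ev_eq, h8ev_eq, LMB_inv_ev]
    simp only [Pi.mul_apply]
    rw [e1, hXΞ, hXΞ]
    simp)
  have hΞ0 : Ξ = 0 := LMB_zero Ξ (by rw [hz', ← hz])
  rw [hΞ, Finset.prod_eq_zero_iff] at hΞ0
  obtain ⟨σ, -, hσ⟩ := hΞ0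
  refine ⟨σ, LMB_x_inj ?_⟩
  have h := sub_eq_zero.1 hσ
  exact congrArg AddMonoidAlgebra.coeff h

end Pool.H66.SYM
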