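import Pool.Agent.H8.T5.Ring

set_option autoImplicit false

/-!
# Module SPR: symmetric products
-/

namespace Pool.H66.SYM

theorem SPR_pow (A : Aut) (τ : A.Cusp) (m : ℕ)
    (hmul : ∀ d d' H H', ∀ F ∈ A.RH τ m d H, ∀ G ∈ A.RH τ m d' H',
      F * G ∈ A.RH τ m (d + d') (H + H'))
    {d d' : ℤ} {H H' : ℕ} {Y F : A.Pt → ℂ} (hY : Y ∈ A.RH τ m d H) (hF : F ∈ A.RH τ m d' H')
    (j : ℕ) : Y ^ j * F ∈ A.RH τ m ((j : ℤ) * d + d') (j * H + H') := by
  induction j with
  | zero => simpa using hF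
  | succ j ih =>
    have h := hmul d ((j : ℤ) * d + d') H (j * H + H') Y hY _ ih
    have e1 : ((j + 1 : ℕ) : ℤ) * d + d' = d + ((j : ℤ) * d + d') := by push_cast; ring
    have e2 : (j + 1) * H + H' = H + (j * H + H') := by ring
    have e3 : Y ^ (j + 1) * F = Y * (Y ^ j * F) := by ring
    rw [e1, e2, e3]
    exact h

/-- The elementary symmetric functions of a family of Laurent polynomials. -/
noncomputable def SPR_e {m : ℕ} {ι : Type} [Fintype ι] (x : ι → H8LR m) (k : ℕ) : H8LR m :=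
  ∑ S ∈ Finset.powersetCard k Finset.univ, ∏ i ∈ S, x i

theorem SPR_e_mem {m : ℕ} {ι : Type} [Fintype ι] {d : ℤ} {H : ℕ} (x : ι → H8LR m)
    (hx : ∀ i, x i ∈ h8S m d H) (k : ℕ) : SPR_e x k ∈ h8S m ((k : ℤ) * d) (k * H) := by
  refine AddSubgroup.sum_mem _ fun S hS => ?_
  have h := (Finset.mem_powersetCard.1 hS).2
  have h2 := h8S_prod S x fun i _ => hx i
  rw [h] at h2
  exact h2

theorem SPR_e_symm {m : ℕ} {ι : Type} [Fintype ι] (x : ι → H8LR m)
    (π : Equiv.Perm (Fin m) → Equiv.Perm ι)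
    (hx : ∀ (σ : Equiv.Perm (Fin m)) (i : ι), h8act σ (x i) = x (π σ i))
    (σ : Equiv.Perm (Fin m)) (k : ℕ) : h8act σ (SPR_e x k) = SPR_e x k := by
  classical
  unfold SPR_e
  rw [map_sum]
  simp only [map_prod, hx]
  refine Finset.sum_bij (fun S _ => S.map (π σ).toEmbedding) ?_ ?_ ?_ ?_
  · intro S hS
    rw [Finset.mem_powersetCard] at hS ⊢
    exact ⟨Finset.subset_univ _, by rw [Finset.card_map]; exact hS.2⟩
  · intro S _ T _ h
    exact Finset.map_injective _ h
  · intro T hT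
    refine ⟨T.map (π σ).symm.toEmbedding, ?_, ?_⟩
    · rw [Finset.mem_powersetCard] at hT ⊢
      exact ⟨Finset.subset_univ _, by rw [Finset.card_map]; exact hT.2⟩
    · ext i
      simp
  · intro S _
    rw [Finset.prod_map]
    rfl

theorem SPR_expand {m : ℕ} {ι : Type} [Fintype ι] (x : ι → H8LR m) (c : Fin m → ℂ)
    (hc : ∀ j, c j ≠ 0) (y : ℂ) :
    ∏ i, (y - ev (x i).coeff c) =
      ∑ k ∈ Finset.range (Fintype.card ι + 1),
        (-1) ^ k * (y ^ (Fintype.card ι - k) * ev (SPR_e x k).coeff c) := by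
  classical
  have h1 : ∀ i, y - ev (x i).coeff c = (-(h8ev c hc (x i))) + y := by
    intro i
    rw [h8ev_eq]
    ring
  simp only [h1]
  rw [Finset.prod_add, Finset.sum_powerset, Finset.card_univ]
  refine Finset.sum_congr rfl fun k _ => ?_
  rw [← h8ev_eq c hc, SPR_e, map_sum, Finset.mul_sum, Finset.mul_sum]
  refine Finset.sum_congr rfl fun S hS => ?_
  have hk := (Finset.mem_powersetCard.1 hS).2
  rw [Finset.prod_neg, hk, map_prod, Finset.prod_const, Finset.card_sdiff_of_subset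
    (Finset.subset_univ S), Finset.card_univ, hk]
  ring

theorem s_SPR (hBAS : S_BAS) (hRMU : S_RMU) (hRSY : S_RSY) : S_SPR := by
  classical
  intro A τ m hsym hm hdeg d H Y hY ι _ φ π hφ hπ
  obtain ⟨-, -, hmul, -, -, hmono⟩ := hRMU A τ m (hsym 2) hm hdeg
  obtain ⟨-, hne, -⟩ := hBAS A
  set x : ι → H8LR m := fun i => AddMonoidAlgebra.ofCoeff (φ i) with hxdef
  have hxS : ∀ i, x i ∈ h8S m d H := fun i a ha => hφ i a ha
  have hxa : ∀ (σ : Equiv.Perm (Fin m)) (i : ι), h8act σ (x i) = x (π σ i) := by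
    intro σ i
    ext a
    rw [h8act_coeff]
    exact (hπ σ i a).symm
  have hF : ∀ k : ℕ, ∃ F ∈ A.RH τ m ((k : ℤ) * d) ((2 * m + 1) * (k * H)),
      ∀ p c, A.Ord τ p c → F p = ev (SPR_e x k).coeff c := by
    intro k
    refine hRSY A τ m hsym hm hdeg _ _ (SPR_e x k).coeff (SPR_e_mem x hxS k) ?_
    intro σ a
    rw [← h8act_coeff, SPR_e_symm x π hxa]
  choose F hFm hFv using hF
  refine ⟨∑ k ∈ Finset.range (Fintype.card ι + 1), ((-1) ^ k : ℤ) •
    (Y ^ (Fintype.card ι - k) * F k), ?_, ?_⟩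
  · refine AddSubgroup.sum_mem _ fun k hk => AddSubgroup.zsmul_mem _ ?_ _
    have hk' : k ≤ Fintype.card ι := Nat.lt_succ_iff.1 (Finset.mem_range.1 hk)
    have h := SPR_pow A τ m hmul hY (hFm k) (Fintype.card ι - k)
    have e1 : ((Fintype.card ι - k : ℕ) : ℤ) * d + (k : ℤ) * d = (Fintype.card ι : ℤ) * d := by
      rw [← add_mul]
      congr 1
      push_cast [Nat.cast_sub hk']
      ring
    rw [e1] at h
    refine hmono _ _ _ ?_ h
    obtain ⟨r, hr⟩ := Nat.exists_eq_add_of_le hk'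
    rw [hr]
    have : k + r - k = r := by omega
    rw [this]
    nlinarith [Nat.zero_le (m * (r * H)), Nat.zero_le (m * (k * H))]
  · intro p c hc
    have hc0 : ∀ j, c j ≠ 0 := by
      intro j hj
      apply hne τ p
      rw [hc, ← hj]
      exact Multiset.mem_map_of_mem _ (Finset.mem_univ j)
    have h := SPR_expand x c hc0 (Y p)
    have h2 : ∀ i, (x i).coeff = φ i := fun i => rfl
    simp only [h2] at h
    rw [h, Finset.sum_apply]
    refine Finset.sum_congr rfl fun k _ => ?_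
    simp [hFv k p c hc]

end Pool.H66.SYM
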