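import Pool.Agent.H66.SYM.Basic

set_option autoImplicit false

/-!
# The ring of Laurent polynomials (tools for SPR and LMB)
-/

namespace Pool.H66.SYM

/-- Laurent polynomials in `m` variables. -/
abbrev H8LR (m : ℕ) : Type := AddMonoidAlgebra ℤ (Fin m → ℤ)

/-- Evaluation at a point with nonzero coordinates. -/
noncomputable def h8ev {m : ℕ} (c : Fin m → ℂ) (hc : ∀ j, c j ≠ 0) : H8LR m →ₐ[ℤ] ℂ :=
  AddMonoidAlgebra.lift ℤ ℂ (Fin m → ℤ)
    { toFun := fun a => mon c a.toAdd
      map_one' := mon_zero c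
      map_mul' := fun a b => mon_add c hc a.toAdd b.toAdd }

theorem h8ev_eq {m : ℕ} (c : Fin m → ℂ) (hc : ∀ j, c j ≠ 0) (x : H8LR m) :
    h8ev c hc x = ev x.coeff c := by
  unfold h8ev ev
  rw [AddMonoidAlgebra.lift_apply']
  rfl

/-- The action of a permutation. -/
def h8eq {m : ℕ} (σ : Equiv.Perm (Fin m)) : (Fin m → ℤ) ≃+ (Fin m → ℤ) where
  toFun := fun a => a ∘ σ.symm
  invFun := fun a => a ∘ σ
  left_inv := fun a => by ext j; simp
  right_inv := fun a => by ext j; simp
  map_add' := fun a b => rfl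

/-- The action of a permutation on Laurent polynomials. -/
noncomputable def h8act {m : ℕ} (σ : Equiv.Perm (Fin m)) : H8LR m ≃ₐ[ℤ] H8LR m :=
  AddMonoidAlgebra.domCongr ℤ ℤ (h8eq σ)

theorem h8act_coeff {m : ℕ} (σ : Equiv.Perm (Fin m)) (x : H8LR m) (a : Fin m → ℤ) :
    (h8act σ x).coeff a = x.coeff (a ∘ σ) := by
  unfold h8act
  rw [AddMonoidAlgebra.coeff_domCongr]
  rfl

/-- Laurent polynomials with weights in `Wt m d H`. -/
def h8S (m : ℕ) (d : ℤ) (H : ℕ) : AddSubgroup (H8LR m) where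
  carrier := {x | ∀ a ∈ x.coeff.support, a ∈ Wt m d H}
  zero_mem' := by
    intro a ha
    simp at ha
  add_mem' := by
    classical
    intro x y hx hy a ha
    have h : a ∈ x.coeff.support ∪ y.coeff.support := by
      rw [AddMonoidAlgebra.coeff_add] at ha
      exact Finsupp.support_add ha
    rcases Finset.mem_union.1 h with h | h
    exacts [hx a h, hy a h]
  neg_mem' := by
    intro x hx a ha
    refine hx a ?_
    rw [AddMonoidAlgebra.coeff_neg] at ha
    rwa [Finsupp.support_neg] at ha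

theorem h8S_iff {m : ℕ} {d : ℤ} {H : ℕ} {x : H8LR m} :
    x ∈ h8S m d H ↔ ∀ a ∈ x.coeff.support, a ∈ Wt m d H := Iff.rfl

theorem h8S_mul {m : ℕ} {d d' : ℤ} {H H' : ℕ} {x y : H8LR m} (hx : x ∈ h8S m d H)
    (hy : y ∈ h8S m d' H') : x * y ∈ h8S m (d + d') (H + H') := by
  classical
  intro a ha
  rw [Finsupp.mem_support_iff, AddMonoidAlgebra.coeff_mul] at ha
  by_contra hcon
  apply ha
  unfold Finsupp.sum
  refine Finset.sum_eq_zero fun b hb => Finset.sum_eq_zero fun b' hb' => if_neg ?_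
  rintro rfl
  exact hcon (Wt_add (hx b hb) (hy b' hb'))

theorem h8S_one (m : ℕ) : (1 : H8LR m) ∈ h8S m 0 0 := by
  classical
  intro a ha
  have h : (1 : H8LR m).coeff = Finsupp.single 0 1 := rfl
  rw [h] at ha
  have h2 := Finsupp.support_single_subset ha
  rw [Finset.mem_singleton] at h2
  subst h2
  exact Wt_zero m 0

theorem h8S_prod {m : ℕ} {d : ℤ} {H : ℕ} {ι : Type} (s : Finset ι) (x : ι → H8LR m)
    (hx : ∀ i ∈ s, x i ∈ h8S m d H) : ∏ i ∈ s, x i ∈ h8S m ((s.card : ℤ) * d) (s.card * H) := by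
  classical
  induction s using Finset.induction_on with
  | empty =>
    simp only [Finset.prod_empty, Finset.card_empty]
    simpa using h8S_one m
  | insert i s hi ih =>
    rw [Finset.prod_insert hi, Finset.card_insert_of_notMem hi]
    have h1 := h8S_mul (hx i (Finset.mem_insert_self _ _))
      (ih fun j hj => hx j (Finset.mem_insert_of_mem hj))
    have e1 : ((s.card + 1 : ℕ) : ℤ) * d = d + (s.card : ℤ) * d := by push_cast; ring
    have e2 : (s.card + 1) * H = H + s.card * H := by ring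
    rw [e1, e2]
    exact h1

theorem h8S_mono {m : ℕ} {d : ℤ} {H H' : ℕ} (h : H ≤ H') : h8S m d H ≤ h8S m d H' :=
  fun _ hx a ha => Wt_mono h (hx a ha)

end Pool.H66.SYM
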